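import Pool.Agent.H20.ER3.Lib

/-!
# MP_816b90_co, board er3_modules, row Q3
-/

set_option autoImplicit false

namespace Pool.Agent.H72.ER3

open Pool.Agent.H48.ER Pool.Agent.H52.ER2 Pool.Agent.H66.ER2 Pool.Agent.H20.ER3

theorem fin3_third (i : Fin 3) (hi : i ≠ 0) : ∃ j : Fin 3, j ≠ 0 ∧ j ≠ i := by
  revert hi
  revert i
  decide

theorem pf_Q3 (hPY : U_PY) (hGP : U_GP) (hGU : U_GU) (hGW : U_GW) (hPR : U_PR) : U_Q3 := by
  intro V _ G R F F' n g k hHM hMP hk0 hkn hF hF' hT
  have hpi := hMP.pi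
  have pos := hpi.pos
  have inj := hpi.inj
  have adj := hpi.adj
  -- the roots
  have hsF : F ⊆ R ∧ Cn G F := by
    have h1 : (MG G R).Adj (g 0 0) (g 0 1) :=
      (adj 0 0 0 1 (Nat.zero_le _) (pos 0)).2 (Or.inl ⟨rfl, Or.inl rfl⟩)
    rw [hF] at h1
    obtain ⟨a, -, h2⟩ := root_adj h1
    exact ⟨h2.2.1, h2.2.2.1⟩
  have hsF' : F' ⊆ R ∧ Cn G F' := by
    have h1 : (MG G R).Adj (g 0 k) (g 0 (k + 1)) :=
      (adj 0 0 k (k + 1) hkn.le (by omega)).2 (Or.inl ⟨rfl, Or.inl rfl⟩)
    rw [hF'] at h1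
    obtain ⟨a, -, h2⟩ := root_adj h1
    exact ⟨h2.2.1, h2.2.2.1⟩
  have hk2 : 2 ≤ k := by
    by_contra hc
    have hk1 : k = 1 := by omega
    have h1 : (MG G R).Adj (g 0 0) (g 0 1) :=
      (adj 0 0 0 1 (Nat.zero_le _) (pos 0)).2 (Or.inl ⟨rfl, Or.inl rfl⟩)
    rw [hF, ← hk1, hF'] at h1
    exact mg_rr h1
  have hFF : F ≠ F' := by
    intro e
    have h1 : g 0 0 = g 0 k := by rw [hF, hF', e]
    have := (inj 0 0 0 k (Nat.zero_le _) hkn.le h1).2
    omega
  obtain ⟨-, hD, hSp⟩ := hGU V G R F F' hsF.1 hsF'.1 hsF.2 hsF'.2 hT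
  set D : V ⊕ Set V := Sum.inr (F ∪ F') with hDdef
  -- the neighbours of the new root in the prism
  have hDn : ∀ i l, l ≤ n i → ((MG G R).Adj D (g i l) ↔
      (i = 0 ∧ (l = 1 ∨ l + 1 = k ∨ l = k + 1)) ∨ (i ≠ 0 ∧ l = 0)) := by
    intro i l hl
    rw [hD, ← hF, ← hF', adj 0 i 0 l (Nat.zero_le _) hl, adj 0 i k l hkn.le hl]
    have := pos i
    have := pos 0
    by_cases hi : i = 0
    · subst hi
      simp only [true_and, ne_eq, not_true_eq_false, false_and, or_false]
      omega
    · have hi' : ¬ (0 : Fin 3) = i := fun e => hi e.symm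
      simp only [hi, hi', false_and, false_or, ne_eq, not_false_eq_true, true_and]
      omega
  have hDne : ∀ i l, l ≤ n i → ¬ (i = 0 ∧ l = 0) → D ≠ g i l := by
    intro i l hl hil e
    by_cases hi : i = 0
    · subst hi
      have hl0 : l ≠ 0 := fun e => hil ⟨rfl, e⟩
      have h1 : (MG G R).Adj D (g 1 0) := (hDn 1 0 (Nat.zero_le _)).2 (Or.inr ⟨by decide, rfl⟩)
      rw [e, adj 0 1 l 0 hl (Nat.zero_le _)] at h1
      have := pos 1
      rcases h1 with h1 | h1
      · exact absurd h1.1 (by decide)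
      · omega
    · obtain ⟨j, hj0, hji⟩ := fin3_third i hi
      have h1 : (MG G R).Adj D (g j 0) := (hDn j 0 (Nat.zero_le _)).2 (Or.inr ⟨hj0, rfl⟩)
      have h2 : (MG G R).Adj D (g 0 (k + 1)) :=
        (hDn 0 (k + 1) (by omega)).2 (Or.inl ⟨rfl, Or.inr (Or.inr rfl)⟩)
      rw [e, adj i j l 0 hl (Nat.zero_le _)] at h1
      rw [e, adj i 0 l (k + 1) hl (by omega)] at h2
      have := pos i
      have := pos j
      rcases h1 with h1 | h1
      · exact hji h1.1.symm
      · rcases h2 with h2 | h2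
        · exact hi h2.1
        · omega
  have hDmem : D ∉ vI n g ∨ D ∈ vI n g := (em _).symm
  have hFm : Sum.inr F ∈ vI n g := ⟨0, 0, Nat.zero_le _, hF⟩
  have hFm' : Sum.inr F' ∈ vI n g := ⟨0, k, hkn.le, hF'⟩
  have hSp' : ∀ Z' : Set (V ⊕ Set V), Z' ⊆ insert D (vI n g) → Al False G R Z' := by
    intro Z' hZ'
    exact ⟨hSp (vI n g) Z' hMP.al.1 hFm hFm' hZ', fun h => h.elim⟩
  -- parity
  have hpar : Even ((n 0 - (k + 1)) + 1 + (n 1 - 0)) := by
    have hip := hPY (V ⊕ Set V) (MG G R) n g 0 1 (k + 1) 0 hpi (by decide) (by omega)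
      (Nat.zero_le _) (by omega)
    refine hGP V False G R (F ∪ F') _ _ _ _ hHM hip (by have := pos 1; omega) ?_ ?_
    · intro w hw
      rcases hw with ⟨l, hl1, hl2, rfl⟩ | ⟨l, -, hl2, rfl⟩
      · rw [← hDdef, hDn 0 l hl2]
        constructor
        · rintro (⟨-, h1 | h1 | h1⟩ | ⟨h1, -⟩)
          · omega
          · omega
          · left
            rw [h1]
          · exact absurd rfl h1
        · rintro (h1 | h1)
          · have := (inj 0 0 l (k + 1) hl2 (by omega) h1).2
            exact Or.inl ⟨rfl, Or.inr (Or.inr this)⟩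
          · exact absurd (inj 0 1 l 0 hl2 (Nat.zero_le _) h1).1 (by decide)
      · rw [← hDdef, hDn 1 l hl2]
        constructor
        · rintro (⟨h1, -⟩ | ⟨-, h1⟩)
          · exact absurd h1 (by decide)
          · right
            rw [h1]
        · rintro (h1 | h1)
          · exact absurd (inj 1 0 l (k + 1) hl2 (by omega) h1).1 (by decide)
          · have := (inj 1 1 l 0 hl2 (Nat.zero_le _) h1).2
            exact Or.inr ⟨by decide, this⟩
    · refine hSp' _ ?_
      refine Set.insert_subset (Set.mem_insert _ _) ?_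
      rintro w (⟨l, hl1, hl2, rfl⟩ | ⟨l, -, hl2, rfl⟩)
      · exact Or.inr ⟨0, l, hl2, rfl⟩
      · exact Or.inr ⟨1, l, hl2, rfl⟩
  have hkeven : Odd (n 0 - k) := by
    have h0 := hMP.odd 0
    have h1 := hMP.odd 1
    rw [Nat.even_iff] at hpar
    rw [Nat.odd_iff] at h0 h1 ⊢
    omega
  -- the new rung
  obtain ⟨h, hh⟩ : ∃ h : ℕ → V ⊕ Set V, h = fun x => if x = 0 then D else g 0 (k + x) := ⟨_, rfl⟩
  have hh0 : h 0 = D := by rw [hh]; simp
  have hh1 : ∀ x, x ≠ 0 → h x = g 0 (k + x) := by
    intro x hx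
    rw [hh]
    simp [hx]
  have hm1 : 1 ≤ n 0 - k := by omega
  have hpf : PF (MG G R) (n 0 - k) h := by
    constructor
    · intro i j hi hj hij
      by_cases h0 : i = 0
      · by_cases h0' : j = 0
        · rw [h0, h0']
        · rw [h0, hh0, hh1 j h0'] at hij
          exact absurd hij (hDne 0 (k + j) (by omega) (by omega))
      · by_cases h0' : j = 0
        · rw [h0', hh0, hh1 i h0] at hij
          exact absurd hij.symm (hDne 0 (k + i) (by omega) (by omega))
        · rw [hh1 i h0, hh1 j h0'] at hij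
          have := (inj 0 0 _ _ (by omega) (by omega) hij).2
          omega
    · intro i j hi hj
      by_cases h0 : i = 0
      · by_cases h0' : j = 0
        · rw [h0, h0', hh0]
          simp
        · rw [h0, hh0, hh1 j h0', hDn 0 (k + j) (by omega)]
          simp only [true_and, ne_eq, not_true_eq_false, false_and, or_false]
          omega
      · by_cases h0' : j = 0
        · rw [h0', hh0, hh1 i h0, SimpleGraph.adj_comm, hDn 0 (k + i) (by omega)]
          simp only [true_and, ne_eq, not_true_eq_false, false_and, or_false]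
          omega
        · rw [hh1 i h0, hh1 j h0', adj 0 0 _ _ (by omega) (by omega)]
          simp only [true_and, ne_eq, not_true_eq_false, false_and, or_false]
          omega
  have hcross : ∀ j a l, j ≠ 0 → a ≤ n 0 - k → l ≤ n j → h a ≠ g j l ∧
      ((MG G R).Adj (h a) (g j l) ↔ (a = 0 ∧ l = 0) ∨ (a = n 0 - k ∧ l = n j)) := by
    intro j a l hj ha hl
    have hj' : ¬ (0 : Fin 3) = j := fun e => hj e.symm
    by_cases h0 : a = 0
    · rw [h0, hh0]
      refine ⟨hDne j l hl (fun e => hj e.1), ?_⟩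
      rw [hDn j l hl]
      simp only [hj, false_and, false_or, ne_eq, not_false_eq_true, true_and]
      omega
    · rw [hh1 a h0]
      refine ⟨fun e => hj (inj 0 j _ _ (by omega) hl e).1.symm, ?_⟩
      rw [adj 0 j _ _ (by omega) hl]
      simp only [hj', false_and, false_or, ne_eq, not_false_eq_true, true_and]
      omega
  have hnew := hPR (V ⊕ Set V) (MG G R) n g (n 0 - k) h hpi hm1 hpf hcross
  have hvI : vI (Function.update n 0 (n 0 - k)) (Function.update g 0 h) ⊆
      insert D (vI n g \ {g 0 0, g 0 k}) := by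
    rintro w ⟨i, l, hl, rfl⟩
    by_cases hi : i = 0
    · subst hi
      rw [Function.update_self] at hl ⊢
      by_cases h0 : l = 0
      · rw [h0, hh0]
        exact Set.mem_insert _ _
      · rw [hh1 l h0]
        refine Or.inr ⟨⟨0, k + l, by omega, rfl⟩, ?_⟩
        rintro (e | e)
        · have := (inj 0 0 _ _ (by omega) (Nat.zero_le _) e).2
          omega
        · have := (inj 0 0 _ _ (by omega) hkn.le e).2
          omega
    · rw [Function.update_of_ne hi] at hl ⊢
      refine Or.inr ⟨⟨i, l, hl, rfl⟩, ?_⟩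
      rintro (e | e)
      · exact hi (inj i 0 _ _ hl (Nat.zero_le _) e).1
      · exact hi (inj i 0 _ _ hl hkn.le e).1
  have hodd : ∀ i, Odd (Function.update n 0 (n 0 - k) i) := by
    intro i
    by_cases hi : i = 0
    · subst hi
      rw [Function.update_self]
      exact hkeven
    · rw [Function.update_of_ne hi]
      exact hMP.odd i
  have hle := hMP.mn _ _ hnew hodd (hSp' _ (hvI.trans
    (Set.insert_subset_insert Set.diff_subset)))
  have hlt := (hGW V (vI n g) (vI (Function.update n 0 (n 0 - k)) (Function.update g 0 h)) F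
    hFm).2.1 F' hFm' hFF (by
      intro F'' hF''
      rcases hvI hF'' with e | e
      · exact Or.inl (Sum.inr.inj e)
      · refine Or.inr ⟨e.1, ?_⟩
        rintro (e2 | e2)
        · apply e.2
          left
          rw [hF, ← e2]
        · apply e.2
          right
          rw [Set.mem_singleton_iff] at e2 ⊢
          rw [hF', e2])
  omega

end Pool.Agent.H72.ER3
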